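import Pool.Agent.Helper40.Ct.Goals

/-! Packet SYM (MP_034a88_co): the staircase sum by recursion on the other list. -/

set_option autoImplicit false

open Finset

namespace Pool.Agent.Helper90.Ct

open Pool.Agent.Helper40.Ct

theorem pf_single {α β : Type} (E : List β) :
    ∀ (f : List (α × β) → ℤ) (x : α),
      Pf E f [x] = (if E = [] then 0 else f (E.map fun e => (x, e))) := by
  induction E with
  | nil => intro f x; simp [Pf]
  | cons e es ih =>
    intro f x
    cases es with
    | nil => simp [Pf]
    | cons e' es =>
      have h := ih (fun l => f ((x, e) :: l)) x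
      simp only [reduceCtorEq, if_false] at h ⊢
      rw [Pf]
      simp only [List.length_singleton, Finset.sum_range_one, List.take_succ_cons, List.take_nil,
        List.map_cons, List.map_nil, List.drop_zero, List.singleton_append]
      simpa using h

theorem pf_cons {α β : Type} (E : List β) :
    ∀ (f : List (α × β) → ℤ) (x x' : α) (xs : List α),
      Pf E f (x :: x' :: xs) = ∑ i ∈ range E.length, (-1) ^ (i * (xs.length + 1)) *
        Pf (E.drop i) (fun l => f ((E.take (i + 1)).map (fun e => (x, e)) ++ l)) (x' :: xs) := by
  induction E with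
  | nil => intro f x x' xs; simp [Pf]
  | cons e es ih =>
    intro f x x' xs
    cases es with
    | nil => simp [Pf]
    | cons e' es =>
      have h := ih (fun l => f ((x, e) :: l)) x x' xs
      rw [Pf]
      rw [show (x :: x' :: xs).length = (xs.length + 1) + 1 from rfl, Finset.sum_range_succ']
      rw [show (e :: e' :: es).length = (e' :: es).length + 1 from rfl,
        Finset.sum_range_succ' _ (e' :: es).length]
      have h0 : ∑ k ∈ range (xs.length + 1), (-1 : ℤ) ^ (xs.length + 1 + 1 - 1 - (k + 1)) *
          Pf (e' :: es) (fun l => f (((x :: x' :: xs).take (k + 1 + 1)).map (fun y => (y, e)) ++ l))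
            ((x :: x' :: xs).drop (k + 1)) =
          (-1) ^ (0 * (xs.length + 1)) * Pf ((e :: e' :: es).drop 0)
            (fun l => f (((e :: e' :: es).take (0 + 1)).map (fun e => (x, e)) ++ l)) (x' :: xs) := by
        rw [Nat.zero_mul, pow_zero, one_mul, List.drop_zero, Pf]
        refine Finset.sum_congr rfl fun k hk => ?_
        rw [show xs.length + 1 + 1 - 1 - (k + 1) = (x' :: xs).length - 1 - k by
          rw [List.length_cons]; omega]
        rfl
      rw [h0, add_comm]
      congr 1
      have h1 : (fun l => f (((x :: x' :: xs).take (0 + 1)).map (fun y => (y, e)) ++ l)) =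
          fun l => f ((x, e) :: l) := rfl
      rw [h1, List.drop_zero, h, Finset.mul_sum]
      refine Finset.sum_congr rfl fun j _ => ?_
      rw [← mul_assoc, ← pow_add]
      rw [show xs.length + 1 + 1 - 1 - 0 + j * (xs.length + 1) = (j + 1) * (xs.length + 1) by
        rw [Nat.add_sub_cancel, Nat.sub_zero]; ring]
      rfl

theorem sym : SYM := fun _ _ E f x x' xs => ⟨pf_single E f x, pf_cons E f x x' xs⟩

end Pool.Agent.Helper90.Ct
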